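import Pool.Agent.N692.LR.Defs

/-!
# Project LR (helper692), part NEG (helper359): no bi-Lipschitz representation near the origin
-/

set_option autoImplicit false

namespace Pool.Agent.N359.LR

open Set Metric Filter Topology
open scoped InnerProductSpace ContDiff
open Pool.Agent.N692.LR

theorem contDiff_u0 : ContDiff ℝ 1 u0 := by
  unfold u0 pA pB
  fun_prop

theorem hasFDerivAt_mul_zero {f g : E3 → ℝ} (hf : DifferentiableAt ℝ f 0)
    (hg : DifferentiableAt ℝ g 0) (hf0 : f 0 = 0) (hg0 : g 0 = 0) :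
    HasFDerivAt (fun x => f x * g x) (0 : E3 →L[ℝ] ℝ) 0 := by
  have h := hf.hasFDerivAt.mul hg.hasFDerivAt
  rw [hf0, hg0, zero_smul, zero_smul, add_zero] at h
  exact h

theorem fderiv_u0_zero : fderiv ℝ u0 0 = 0 := by
  have h1 : HasFDerivAt (fun x : E3 => x 0 * pA (x 0 ^ 2 + x 1 ^ 2) (x 2 ^ 2))
      (0 : E3 →L[ℝ] ℝ) 0 := by
    apply hasFDerivAt_mul_zero
    · fun_prop
    · unfold pA
      fun_prop
    · simp
    · simp [pA]
  have h2 : HasFDerivAt (fun x : E3 => x 1 * (x 2 * pB (x 0 ^ 2 + x 1 ^ 2) (x 2 ^ 2)))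
      (0 : E3 →L[ℝ] ℝ) 0 := by
    apply hasFDerivAt_mul_zero
    · fun_prop
    · unfold pB
      fun_prop
    · simp
    · simp
  have h3 := h1.sub h2
  rw [sub_zero] at h3
  have h4 : u0 = fun x : E3 => x 0 * pA (x 0 ^ 2 + x 1 ^ 2) (x 2 ^ 2) -
      x 1 * (x 2 * pB (x 0 ^ 2 + x 1 ^ 2) (x 2 ^ 2)) := by
    funext x
    unfold u0
    ring
  rw [h4]
  exact h3.fderiv

theorem u0_axis (t : ℝ) : u0 (EuclideanSpace.single 0 t) = t * (-t ^ 2 - t ^ 4 / 2) := by
  have e0 : (EuclideanSpace.single 0 t : E3) 0 = t := by simp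
  have e1 : (EuclideanSpace.single 0 t : E3) 1 = 0 := by simp
  have e2 : (EuclideanSpace.single 0 t : E3) 2 = 0 := by simp
  unfold u0 pA pB
  rw [e0, e1, e2]
  ring

/-- a bi-Lipschitz map has an invertible derivative where it is differentiable -/
theorem lower {c C δ : ℝ} {Φ : E3 → E3} (h : BiLip c C δ Φ) {p : E3} (hp : p ∈ ball (0 : E3) δ)
    (hd : DifferentiableAt ℝ Φ p) (v : E3) : c * ‖v‖ ≤ ‖fderiv ℝ Φ p v‖ := by
  have h1 := (hd.hasFDerivAt.hasLineDerivAt v).tendsto_slope_zero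
  have h2 := h1.norm
  refine ge_of_tendsto h2 ?_
  have h3 : ∀ᶠ t : ℝ in 𝓝 0, p + t • v ∈ ball (0 : E3) δ := by
    have hc : ContinuousAt (fun t : ℝ => p + t • v) 0 := by fun_prop
    have : ball (0 : E3) δ ∈ 𝓝 (p + (0 : ℝ) • v) := by
      rw [zero_smul, add_zero]
      exact isOpen_ball.mem_nhds hp
    exact hc this
  filter_upwards [nhdsWithin_le_nhds h3, self_mem_nhdsWithin] with t ht hne
  have hne' : t ≠ 0 := hne
  have h4 := (h (p + t • v) ht p hp).1
  rw [dist_eq_norm, dist_eq_norm, add_sub_cancel_left, norm_smul] at h4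
  rw [norm_smul, norm_inv]
  have h5 : 0 < ‖t‖ := norm_pos_iff.2 hne'
  rw [inv_mul_eq_div, le_div_iff₀ h5]
  nlinarith

theorem t_NEG : Pool.Agent.N692.LR.S_NEG := by
  intro f K hf m η hm hη δ c C hδ hc V a Φ hV ha hΦ hrep
  obtain ⟨V', hV1, hV2⟩ := hV
  have h0 : (0 : E3) ∈ ball (0 : E3) δ := mem_ball_self hδ
  have hu00 : u0 0 = 0 := by simp [u0]
  set g : E3 → ℝ := fun x => inner ℝ (Φ x) a with hg
  set s0 : ℝ := g 0 with hs0
  have hVs0 : V s0 = m := by
    have := hrep 0 h0
    rw [hu00, mul_zero, add_zero] at this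
    exact this.symm
  have hVc : Continuous V := continuous_iff_continuousAt.2 fun s => (hV1 s).continuousAt
  obtain ⟨e, he, hJ⟩ : ∃ e > 0, ball s0 e ⊆ {s | K < V s} := by
    have ho : IsOpen {s | K < V s} := isOpen_lt continuous_const hVc
    exact Metric.isOpen_iff.1 ho s0 (by show K < V s0; rw [hVs0]; exact hm)
  have hpre : IsPreconnected (ball s0 e) := (convex_ball s0 e).isPreconnected
  -- `V'` is constant
  have hb : ∀ s ∈ ball s0 e, V' s = V' s0 := by
    intro s hs
    refine isOpen_ball.is_const_of_deriv_eq_zero hpre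
      (fun x _ => (hV2 x).differentiableAt.differentiableWithinAt) ?_ hs (mem_ball_self he)
    intro x hx
    rw [(hV2 x).deriv]
    exact hf _ (hJ hx)
  -- `Φ` is Lipschitz
  have hLip : LipschitzOnWith C.toNNReal Φ (ball (0 : E3) δ) := by
    apply LipschitzOnWith.of_dist_le_mul
    intro x hx y hy
    refine ((hΦ x hx y hy).2).trans ?_
    exact mul_le_mul_of_nonneg_right (Real.le_coe_toNNReal C) dist_nonneg
  have hgd : ∀ x ∈ ball (0 : E3) δ, |g x - s0| ≤ (C.toNNReal : ℝ) * ‖x‖ := by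
    intro x hx
    have h1 : g x - s0 = inner ℝ (Φ x - Φ 0) a := by
      rw [inner_sub_left]
    rw [h1]
    refine (abs_real_inner_le_norm _ _).trans ?_
    rw [ha, mul_one]
    have h2 := hLip.dist_le_mul x hx 0 h0
    rw [dist_eq_norm, dist_zero_right] at h2
    exact h2
  set ρ : ℝ := min δ (e / (C.toNNReal + 1)) with hρ
  have hρ0 : 0 < ρ := lt_min hδ (by positivity)
  have hρδ : ∀ x ∈ ball (0 : E3) ρ, x ∈ ball (0 : E3) δ := by
    intro x hx
    exact ball_subset_ball (min_le_left _ _) hx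
  have hgJ : ∀ x ∈ ball (0 : E3) ρ, g x ∈ ball s0 e := by
    intro x hx
    rw [mem_ball, Real.dist_eq]
    have h1 := hgd x (hρδ x hx)
    rw [mem_ball, dist_zero_right] at hx
    have h2 : ‖x‖ < e / (C.toNNReal + 1) := lt_of_lt_of_le hx (min_le_right _ _)
    rw [lt_div_iff₀ (by positivity)] at h2
    have h3 : (0 : ℝ) ≤ C.toNNReal := NNReal.coe_nonneg _
    nlinarith [norm_nonneg x]
  -- the estimate of `b` at points of differentiability
  have hest : ∀ p ∈ ball (0 : E3) ρ, DifferentiableAt ℝ Φ p →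
      |V' s0| ≤ |η| * ‖fderiv ℝ u0 p‖ * (1 / c) := by
    intro p hp hd
    have hpδ := hρδ p hp
    have hlow := lower hΦ hpδ hd
    have hinj : Function.Injective (fderiv ℝ Φ p : E3 →ₗ[ℝ] E3) := by
      rw [injective_iff_map_eq_zero]
      intro v hv
      have h1 := hlow v
      have h2 : fderiv ℝ Φ p v = 0 := hv
      rw [h2, norm_zero] at h1
      have h3 : ‖v‖ ≤ 0 := by
        by_contra hcon
        push Not at hcon
        have : 0 < c * ‖v‖ := mul_pos hc hcon
        linarith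
      exact norm_le_zero_iff.1 h3
    obtain ⟨v, hv⟩ := (LinearMap.injective_iff_surjective.1 hinj) a
    have hv' : fderiv ℝ Φ p v = a := hv
    have hvn : ‖v‖ ≤ 1 / c := by
      have h1 := hlow v
      rw [hv', ha] at h1
      rw [le_div_iff₀ hc]
      linarith
    -- the two derivatives
    have hud : HasFDerivAt (fun x => m + η * u0 x) (η • fderiv ℝ u0 p) p := by
      have h1 := (contDiff_u0.differentiable (by norm_num) p).hasFDerivAt
      exact (h1.const_mul η).const_add m
    have hgder : HasFDerivAt g ((innerSL ℝ a).comp (fderiv ℝ Φ p)) p := by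
      have h1 := (innerSL ℝ a).hasFDerivAt.comp p hd.hasFDerivAt
      have h2 : ((innerSL ℝ a) ∘ Φ) = g := by
        funext x
        show inner ℝ a (Φ x) = inner ℝ (Φ x) a
        exact real_inner_comm _ _
      rw [h2] at h1
      exact h1
    have hVg : HasFDerivAt (fun x => V (g x))
        (V' (g p) • ((innerSL ℝ a).comp (fderiv ℝ Φ p))) p :=
      (hV1 (g p)).comp_hasFDerivAt p hgder
    have heq : (fun x => m + η * u0 x) =ᶠ[𝓝 p] fun x => V (g x) := by
      filter_upwards [isOpen_ball.mem_nhds hpδ] with x hx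
      exact hrep x hx
    have huniq := (hVg.congr_of_eventuallyEq heq).unique hud
    have h5 := congrArg (fun L : E3 →L[ℝ] ℝ => L v) huniq
    have h6 : V' (g p) * inner ℝ a (fderiv ℝ Φ p v) = η * fderiv ℝ u0 p v := h5
    rw [hv', real_inner_self_eq_norm_sq, ha, hb _ (hgJ p hp)] at h6
    have h7 : V' s0 = η * fderiv ℝ u0 p v := by linarith
    rw [h7, abs_mul, mul_assoc]
    refine mul_le_mul_of_nonneg_left ?_ (abs_nonneg _)
    have h8 : |fderiv ℝ u0 p v| ≤ ‖fderiv ℝ u0 p‖ * ‖v‖ := by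
      have := (fderiv ℝ u0 p).le_opNorm v
      rwa [Real.norm_eq_abs] at this
    exact h8.trans (mul_le_mul_of_nonneg_left hvn (norm_nonneg _))
  -- `b = 0`
  have hb0 : V' s0 = 0 := by
    by_contra hne
    have hpos : 0 < |V' s0| := abs_pos.2 hne
    have hcont : Continuous (fun p => |η| * ‖fderiv ℝ u0 p‖ * (1 / c)) := by
      have := contDiff_u0.continuous_fderiv (by norm_num)
      fun_prop
    have hlt : ∀ᶠ p in 𝓝 (0 : E3), |η| * ‖fderiv ℝ u0 p‖ * (1 / c) < |V' s0| := by
      have h1 : |η| * ‖fderiv ℝ u0 0‖ * (1 / c) < |V' s0| := by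
        rw [fderiv_u0_zero, norm_zero, mul_zero, zero_mul]
        exact hpos
      exact hcont.continuousAt.eventually (gt_mem_nhds h1)
    obtain ⟨r, hr, hr2⟩ := Metric.eventually_nhds_iff_ball.1 hlt
    have hae := hLip.ae_differentiableWithinAt_of_mem (μ := MeasureTheory.volume)
    have hpos2 : MeasureTheory.volume (ball (0 : E3) (min r ρ)) ≠ 0 :=
      (Metric.measure_ball_pos _ _ (lt_min hr hρ0)).ne'
    obtain ⟨p, hp1, hp2⟩ : ∃ p ∈ ball (0 : E3) (min r ρ),
        (p ∈ ball (0 : E3) δ → DifferentiableWithinAt ℝ Φ (ball (0 : E3) δ) p) := by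
      by_contra hcon
      push Not at hcon
      apply hpos2
      refine MeasureTheory.measure_mono_null ?_ (MeasureTheory.ae_iff.1 hae)
      intro p hp
      show ¬ _
      intro h
      exact (hcon p hp).2 (h (hcon p hp).1)
    have hp3 : p ∈ ball (0 : E3) r := ball_subset_ball (min_le_left _ _) hp1
    have hp4 : p ∈ ball (0 : E3) ρ := ball_subset_ball (min_le_right _ _) hp1
    have hd : DifferentiableAt ℝ Φ p :=
      (hp2 (hρδ p hp4)).differentiableAt (isOpen_ball.mem_nhds (hρδ p hp4))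
    have h1 := hest p hp4 hd
    have h2 := hr2 p hp3
    linarith
  -- `V` is constant
  have hVconst : ∀ s ∈ ball s0 e, V s = m := by
    intro s hs
    rw [← hVs0]
    refine isOpen_ball.is_const_of_deriv_eq_zero hpre
      (fun x _ => (hV1 x).differentiableAt.differentiableWithinAt) ?_ hs (mem_ball_self he)
    intro x hx
    rw [(hV1 x).deriv, hb x hx, hb0]
    rfl
  set x : E3 := EuclideanSpace.single 0 (ρ / 2) with hx
  have hxρ : x ∈ ball (0 : E3) ρ := by
    rw [mem_ball, dist_zero_right, hx]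
    simp
    rw [abs_of_pos hρ0]
    linarith
  have h1 := hrep x (hρδ x hxρ)
  have h2 : V (g x) = m := hVconst _ (hgJ x hxρ)
  have h3 : m + η * u0 x = m := h1.trans h2
  have h4 : u0 x = 0 := by
    have : η * u0 x = 0 := by linarith
    exact (mul_eq_zero.1 this).resolve_left hη
  rw [hx, u0_axis] at h4
  have h5 : 0 < ρ / 2 := by linarith
  have h6 : ρ / 2 * (-(ρ / 2) ^ 2 - (ρ / 2) ^ 4 / 2) < 0 := by
    apply mul_neg_of_pos_of_neg h5
    have : 0 < (ρ / 2) ^ 2 := by positivity
    have : 0 < (ρ / 2) ^ 4 := by positivity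
    linarith
  linarith

end Pool.Agent.N359.LR
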